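import Pool.Agent.helper55.NM.Spec3

/-!
# nm:ASZ: assembly of the parts for `n + 1 ≤ 3 k`
-/

set_option autoImplicit false

namespace Pool.Agent.helper30.NM

open Pool.Agent.NM Pool.Agent.helper72.UP Finset Nat

open Classical in
theorem ASZ_one (hPC : PC_stmt) (hBZ : BZ_stmt) (hBZP : BZP_stmt) (hTR3 : TR3_stmt) (ε : ℝ) (hε : 0 < ε)
    (hε2 : ε ≤ 1 / 100) (p0 : ℕ) :
    ∃ n0 : ℕ, ∀ (n k : ℕ) (x : Fin n → ℝ), n0 ≤ n →
      n + 1 ≤ 3 * k → (k : ℝ) ≤ (1 / 2 - ε) * n → (∀ i, x i ≠ 0) →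
      (univ.filter (fun i => 0 < x i)).card < p0 → zer x k ≤ 2 * (n - 2).choose (k - 1) := by
  obtain ⟨nC, hC⟩ := hPC ε hε
  obtain ⟨n3, hn3⟩ := hBZ ε 3 hε le_rfl
  have hB : ∀ p : ℕ, ∃ n0 : ℕ, 4 ≤ p → ∀ (n k : ℕ) (x : Fin n → ℝ), n0 ≤ n →
      (n : ℝ) / 3 ≤ k → (k : ℝ) ≤ (1 / 2 - ε) * n → (∀ i, x i ≠ 0) →
      (univ.filter (fun i => 0 < x i)).card = p → zer x k ≤ 2 * (n - 2).choose (k - 1) := by
    intro p
    by_cases h : 4 ≤ p
    · obtain ⟨n0, hn0⟩ := hBZP ε p hε (by linarith) h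
      exact ⟨n0, fun _ => hn0⟩
    · exact ⟨0, fun h' => absurd h' h⟩
  choose nB hnB using hB
  refine ⟨max (max nC n3) ((range p0).sup nB), ?_⟩
  intro n k x hn h1 h2 hx hp
  have hnC : nC ≤ n := le_trans (le_trans (le_max_left _ _) (le_max_left _ _)) hn
  have hn3' : n3 ≤ n := le_trans (le_trans (le_max_right _ _) (le_max_left _ _)) hn
  have hnB' : (range p0).sup nB ≤ n := le_trans (le_max_right _ _) hn
  have h1' : (n : ℝ) + 1 ≤ 3 * k := by exact_mod_cast h1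
  have hk3 : (n : ℝ) / 3 ≤ k := by linarith
  rcases Nat.lt_trichotomy (univ.filter (fun i => 0 < x i)).card 3 with h3 | h3 | h3
  · exact hC n k x hnC hk3 h2 hx (by omega)
  · by_cases h4 : 100 * k ≤ 37 * n
    · exact hTR3 n k x h1 h4 hx h3
    · refine hn3 n k x hn3' ?_ h2 hx h3
      have h5 : 37 * n ≤ 100 * k := by omega
      have h6 : 37 * (n : ℝ) ≤ 100 * k := by exact_mod_cast h5
      have h7 : ε * n ≤ 1 / 100 * n := mul_le_mul_of_nonneg_right hε2 (Nat.cast_nonneg n)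
      have h8 : (0 : ℝ) ≤ n := Nat.cast_nonneg n
      linarith
  · have h5 : nB (univ.filter (fun i => 0 < x i)).card ≤ n :=
      le_trans (Finset.le_sup (f := nB) (mem_range.2 hp)) hnB'
    exact hnB _ (by omega) n k x h5 hk3 h2 hx rfl

open Classical in
theorem ASZ (hPA : PA_stmt) (hPC : PC_stmt) (hBZ : BZ_stmt) (hBZP : BZP_stmt) (hTR3 : TR3_stmt)
    (hSYM : SYM_stmt) : ASZ_stmt := by
  intro ε₀ hε₀
  obtain ⟨ε, hε, hε1, hε2⟩ : ∃ ε : ℝ, 0 < ε ∧ ε ≤ ε₀ ∧ ε ≤ 1 / 100 :=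
    ⟨min ε₀ (1 / 100), lt_min hε₀ (by norm_num), min_le_left _ _, min_le_right _ _⟩
  obtain ⟨p0, nA, hA⟩ := hPA ε hε
  obtain ⟨nB, hB⟩ := ASZ_one hPC hBZ hBZP hTR3 ε hε hε2 p0
  refine ⟨max nA nB, ?_⟩
  intro n k x hn h1 h2₀ hx
  have h2 : (k : ℝ) ≤ (1 / 2 - ε) * n :=
    h2₀.trans (mul_le_mul_of_nonneg_right (by linarith) (Nat.cast_nonneg n))
  have hnA : nA ≤ n := le_trans (le_max_left _ _) hn
  have hnB : nB ≤ n := le_trans (le_max_right _ _) hn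
  have h1' : (n : ℝ) + 1 ≤ 3 * k := by exact_mod_cast h1
  by_cases ha : (univ.filter (fun i => 0 < x i)).card < p0
  · exact hB n k x hnB h1 h2 hx ha
  by_cases hb : (univ.filter (fun i => x i < 0)).card < p0
  · rw [← hSYM n k x]
    refine hB n k (fun i => - x i) hnB h1 h2 (fun i => neg_ne_zero.2 (hx i)) ?_
    have h3 : (univ.filter (fun i => 0 < - x i)) = univ.filter (fun i => x i < 0) := by
      ext i
      simp only [mem_filter, mem_univ, true_and, Left.neg_pos_iff]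
    rw [h3]
    exact hb
  · exact hA n k x hnA (by linarith) h2 hx (not_lt.1 ha) (not_lt.1 hb)

end Pool.Agent.helper30.NM
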